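import Mathlib

open Set Function

namespace Pool.Agent.Results.MP_822856_al.Cones

/-- The sum of `n + 1` copies of `x` in an additively written semigroup. -/
def nm {A : Type} [Add A] (x : A) : ℕ → A
  | 0 => x
  | n + 1 => nm x n + x

/-- A subsemigroup of `([0,∞),+)` with a positive element, closed under positive differences. -/
def Cone (T : AddSubsemigroup ℝ) : Prop :=
  (∀ x ∈ T, 0 ≤ x) ∧ (∃ x ∈ T, 0 < x) ∧ ∀ x ∈ T, ∀ y ∈ T, x < y → y - x ∈ T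

/-- The positive elements of `ℚ + ℚ t`. -/
def P (t : ℝ) : AddSubsemigroup ℝ where
  carrier := {x | 0 < x ∧ ∃ a b : ℚ, x = a + b * t}
  add_mem' := by
    rintro _ _ ⟨h, a, b, rfl⟩ ⟨k, c, d, rfl⟩
    exact ⟨add_pos h k, a + c, b + d, by push_cast; ring⟩

/-- The non-negative elements of `ℚ + ℚ t`. -/
def N (t : ℝ) : AddSubsemigroup ℝ where
  carrier := {x | 0 ≤ x ∧ ∃ a b : ℚ, x = a + b * t}
  add_mem' := by
    rintro _ _ ⟨h, a, b, rfl⟩ ⟨k, c, d, rfl⟩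
    exact ⟨add_nonneg h k, a + c, b + d, by push_cast; ring⟩

lemma mnm {A B : Type} [Add A] [Add B] {f : A → B} (h : ∀ x y, f (x + y) = f x + f y) (x : A)
    (n : ℕ) : f (nm x n) = nm (f x) n := by
  induction n with
  | zero => rfl
  | succ n ih => rw [nm, nm, h, ih]

lemma nmr {K : Type} [Semiring K] (x : K) (n : ℕ) : nm x n = (n + 1) * x := by
  induction n with
  | zero => simp [nm]
  | succ n ih => rw [nm, ih, Nat.cast_succ, add_mul (n + 1 : K), one_mul]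

lemma core {A : Type} [Add A] {ι φ : A → ℝ} (hι : ∀ x y, ι (x + y) = ι x + ι y)
    (hφ : ∀ x y, φ (x + y) = φ x + φ y) (i : Injective ι) (ι0 : ∀ x, 0 ≤ ι x) (φ0 : ∀ x, 0 ≤ φ x)
    (d : ∀ x y, ι x < ι y → ∃ z, y = x + z) (x y : A) : φ x * ι y = φ y * ι x := by
  wlog h : φ x * ι y < φ y * ι x generalizing x y
  · exact (not_lt.1 h).eq_or_lt.elim Eq.symm fun h => (this y x h).symm
  exfalso
  have a : 0 < φ y := pos_of_mul_pos_left ((mul_nonneg (φ0 x) (ι0 y)).trans_lt h) (ι0 x)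
  have b : 0 < ι y := (ι0 y).lt_of_ne fun e => by
    have := hφ y y
    rw [i (show ι (y + y) = ι y by rw [hι, ← e, add_zero])] at this
    linarith
  obtain ⟨n, hn⟩ := exists_nat_one_div_lt (sub_pos.2 ((div_lt_div_iff₀ a b).2 (by linarith) :
    φ x / φ y < ι x / ι y))
  have h1 := Nat.lt_floor_add_one ((n + 1) * (φ x / φ y))
  have h2 := Nat.floor_le (show 0 ≤ (n + 1) * (φ x / φ y) by have := φ0 x; positivity)
  generalize ⌊(n + 1) * (φ x / φ y)⌋₊ = m at h1 h2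
  rw [div_lt_iff₀ (by positivity)] at hn
  obtain ⟨z, hz⟩ := d (nm y m) (nm x n) (by
    rw [mnm hι, mnm hι, nmr, nmr, ← lt_div_iff₀ b, mul_div_assoc]; linarith)
  have := congrArg φ hz
  rw [hφ, mnm hφ, mnm hφ, nmr, nmr] at this
  rw [← mul_div_assoc, div_lt_iff₀ a] at h1
  linarith [φ0 z]

lemma mul {T W : AddSubsemigroup ℝ} (h : Cone T) (k : ∀ x ∈ W, (0 : ℝ) ≤ x) (f : T →ₙ+ W) :
    ∃ c : ℝ, ∀ x, (f x : ℝ) = c * x := by
  obtain ⟨h0, ⟨y, hy, y0⟩, hd⟩ := h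
  refine ⟨f ⟨y, hy⟩ / y, fun x => ?_⟩
  rw [div_mul_eq_mul_div, eq_div_iff y0.ne']
  exact core (ι := Subtype.val) (φ := fun x => (f x : ℝ)) (fun _ _ => rfl) (by simp)
    Subtype.val_injective (fun x => h0 _ x.2) (fun x => k _ (f x).2) (fun x y h =>
      ⟨⟨y - x, hd _ x.2 _ y.2 h⟩, Subtype.ext (by simp)⟩) x ⟨y, hy⟩

lemma main {A : Type} [Add A] {ι : A → ℚ} (hι : ∀ x y, ι (x + y) = ι x + ι y) (i : Injective ι)
    (ι0 : ∀ x, 0 ≤ ι x) (d : ∀ x y, ι x < ι y → ∃ z, y = x + z)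
    (m : ∀ x y, ι y ≠ 0 → (∃ z, ι z = ι x / ι y) ∧ ∃ z, ι z = ι x * ι y)
    {T : AddSubsemigroup ℝ} (h : Cone T) : Nonempty (A ≃+ (T →ₙ+ T)) ↔
      ∀ c : ℝ, (∀ x ∈ T, c * x ∈ T) ↔ ∃ q, c = ι q := by
  obtain ⟨y, hy, y0⟩ := h.2.1
  let F : ∀ c : ℝ, (∀ x ∈ T, c * x ∈ T) → T →ₙ+ T := fun c hc =>
    ⟨fun x => ⟨c * x, hc _ x.2⟩, fun x y => Subtype.ext (mul_add _ _ _)⟩
  refine ⟨fun ⟨e⟩ c => ?_, fun k => ⟨.ofBijective (⟨fun q => F (ι q) ((k _).2 ⟨q, rfl⟩), fun p q =>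
    AddHom.ext fun x => Subtype.ext (by simp [F, hι, add_mul])⟩ : A →ₙ+ T →ₙ+ T)
    ⟨fun p q e => i (by simpa [F, y0.ne'] using congrArg (fun f => (f ⟨y, hy⟩ : ℝ)) e), fun f => ?_⟩⟩⟩
  swap
  · obtain ⟨c, hc⟩ := mul h h.1 f
    obtain ⟨q, rfl⟩ := (k c).1 fun x hx => hc ⟨x, hx⟩ ▸ (f ⟨x, hx⟩).2
    exact ⟨q, AddHom.ext fun x => Subtype.ext (hc x).symm⟩
  obtain ⟨r, hr⟩ := e.surjective (.id _)
  have g : ∀ q x, (e q x : ℝ) * ι r = x * ι q := fun q x => by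
    simpa [hr] using core (ι := fun q => (ι q : ℝ)) (φ := fun q => (e q x : ℝ)) (by simp [hι])
      (by simp) (Rat.cast_injective.comp i) (by simpa) (fun q => h.1 _ (e q x).2) (by simpa) q r
  have r0 : ι r ≠ 0 := fun z => by
    obtain ⟨q, hq⟩ := e.surjective (.id _ + .id _)
    have a := i (show ι (r + r) = ι r by rw [hι, z, add_zero])
    have b := congrArg (fun f => (e f ⟨y, hy⟩ : ℝ)) a
    simp [hr] at b
    exact y0.ne' b
  have r1 : (ι r : ℝ) ≠ 0 := by exact_mod_cast r0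
  constructor
  · intro hc
    obtain ⟨q, hq⟩ := e.surjective (F c hc)
    obtain ⟨z, hz⟩ := (m q r r0).1
    have := g q ⟨y, hy⟩
    refine ⟨z, ?_⟩
    rw [hz, Rat.cast_div, eq_div_iff r1]
    simp only [hq, F, AddHom.coe_mk] at this
    exact mul_left_cancel₀ y0.ne' (by linarith)
  · rintro ⟨q, rfl⟩ x hx
    obtain ⟨z, hz⟩ := (m q r r0).2
    have := g z ⟨x, hx⟩
    rw [hz, Rat.cast_mul, ← mul_assoc, mul_left_inj' r1, mul_comm] at this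
    exact this ▸ (e z ⟨x, hx⟩).2

lemma tr {t c : ℝ} (ht : Transcendental ℚ t) (h : ∀ x ∈ P t, ∃ a b : ℚ, c * x = a + b * t) :
    ∃ a : ℚ, c = a := by
  obtain ⟨a, b, e⟩ := h 1 ⟨one_pos, 1, 0, by simp⟩
  obtain ⟨r, hr⟩ := exists_rat_gt (-t)
  obtain ⟨a', b', e'⟩ := h (r + t) ⟨by linarith, r, 1, by simp⟩
  rw [mul_one] at e
  have := congrArg (·.coeff 2) (transcendental_iff.1 ht (.C b * .X ^ 2 + .C (a + b * r - b') * .X +
    .C (a * r - a')) (by simp; rw [e] at e'; linarith))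
  simp [Polynomial.coeff_X, Polynomial.coeff_C] at this
  exact ⟨a, by simp [e, this]⟩

lemma cP (t : ℝ) : Cone (P t) := ⟨fun _ h => h.1.le, ⟨1, ⟨one_pos, 1, 0, by simp⟩, one_pos⟩, by
  rintro _ ⟨-, a, b, rfl⟩ _ ⟨-, c, d, rfl⟩ h
  exact ⟨sub_pos.2 h, c - a, d - b, by push_cast; ring⟩⟩

lemma cN (t : ℝ) : Cone (N t) := ⟨fun _ h => h.1, ⟨1, ⟨zero_le_one, 1, 0, by simp⟩, one_pos⟩, by
  rintro _ ⟨-, a, b, rfl⟩ _ ⟨-, c, d, rfl⟩ h
  exact ⟨(sub_pos.2 h).le, c - a, d - b, by push_cast; ring⟩⟩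

lemma q1 {T : AddSubsemigroup ℝ} (h : Cone T) : Nonempty ({q : ℚ // 0 < q} ≃+ (T →ₙ+ T)) ↔
    ∀ c : ℝ, (∀ x ∈ T, c * x ∈ T) ↔ ∃ q : ℚ, 0 < q ∧ c = q := by
  simpa using main (A := {q : ℚ // 0 < q}) (ι := Subtype.val) (fun _ _ => rfl) Subtype.val_injective
    (fun x => x.2.le) (fun x y h => ⟨⟨y - x, sub_pos.2 h⟩, Subtype.ext (by simp)⟩)
    (fun x y _ => ⟨⟨⟨_, div_pos x.2 y.2⟩, rfl⟩, ⟨_, mul_pos x.2 y.2⟩, rfl⟩) h

lemma q2 {T : AddSubsemigroup ℝ} (h : Cone T) : Nonempty ({q : ℚ // 0 ≤ q} ≃+ (T →ₙ+ T)) ↔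
    ∀ c : ℝ, (∀ x ∈ T, c * x ∈ T) ↔ ∃ q : ℚ, 0 ≤ q ∧ c = q := by
  simpa using main (A := {q : ℚ // 0 ≤ q}) (ι := Subtype.val) (fun _ _ => rfl) Subtype.val_injective
    (fun x => x.2) (fun x y h => ⟨⟨y - x, (sub_pos.2 h).le⟩, Subtype.ext (add_sub_cancel _ _).symm⟩)
    (fun x y _ => ⟨⟨⟨_, div_nonneg x.2 y.2⟩, rfl⟩, ⟨_, mul_nonneg x.2 y.2⟩, rfl⟩) h

lemma iso {T W : AddSubsemigroup ℝ} (h : Cone T) (k : Cone W) :
    Nonempty (T ≃+ W) ↔ ∃ c : ℝ, 0 < c ∧ (c * ·) '' (T : Set ℝ) = W := by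
  refine ⟨fun ⟨e⟩ => ?_, fun ⟨c, c0, hc⟩ => ⟨.ofBijective (⟨fun x => ⟨c * x, hc.subset ⟨_, x.2, rfl⟩⟩,
    fun x y => Subtype.ext (mul_add _ _ _)⟩ : T →ₙ+ W) ⟨fun x y e => Subtype.ext
      (mul_left_cancel₀ c0.ne' (congrArg Subtype.val e)), fun y =>
      let ⟨x, hx, e⟩ := hc.symm.subset y.2; ⟨⟨x, hx⟩, Subtype.ext e⟩⟩⟩⟩
  obtain ⟨c, hc⟩ := mul h k.1 e.toAddHom
  have s : ∀ y ∈ W, ∃ x ∈ T, c * x = y := fun y hy =>
    ⟨_, (e.symm ⟨y, hy⟩).2, (hc _).symm.trans (by simp)⟩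
  obtain ⟨y, hy, y0⟩ := k.2.1
  obtain ⟨x, hx, rfl⟩ := s y hy
  refine ⟨c, pos_of_mul_pos_left y0 (h.1 _ hx), Subset.antisymm ?_ s⟩
  rintro _ ⟨x, hx, rfl⟩
  exact mem_of_eq_of_mem (hc ⟨x, hx⟩).symm (e ⟨x, hx⟩).2

section
variable {S : Type} [AddCommSemigroup S]

lemma co (x : S) (n : ℕ) : ((nm x n : S) : WithZero S) = (n + 1) • (x : WithZero S) := by
  induction n with
  | zero => simp [nm]
  | succ n ih => rw [nm, WithZero.coe_add, ih, succ_nsmul _ (n + 1)]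

lemma n1 (x y : S) (n : ℕ) : nm (x + y) n = nm x n + nm y n :=
  WithZero.coe_inj.1 (by simp only [co, WithZero.coe_add, smul_add])
lemma n2 (x : S) (m n : ℕ) : nm (nm x m) n = nm x (m * n + m + n) :=
  WithZero.coe_inj.1 (by simp only [co, smul_smul]; congr 1; ring)
lemma n3 (x : S) (m n : ℕ) : nm x m + nm x n = nm x (m + n + 1) :=
  WithZero.coe_inj.1 (by simp only [co, WithZero.coe_add, ← add_smul]; congr 1; ring)
lemma n4 (x : S) (m n : ℕ) : nm (nm x m) n = nm (nm x n) m := by rw [n2, n2]; congr 1; ring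

lemma ex {q : ℚ} (h : 0 < q) : ∃ m n : ℕ, q = (m + 1) / (n + 1) := by
  obtain ⟨m, hm⟩ := Int.eq_succ_of_zero_lt (Rat.num_pos.2 h)
  obtain ⟨n, hn⟩ := Nat.exists_eq_succ_of_ne_zero q.den_nz
  exact ⟨m, n, by rw [← Rat.num_div_den q, hm, hn]; push_cast; rfl⟩

lemma gen : Nonempty ({q : ℚ // 0 < q} ≃+ (S →ₙ+ S)) ↔ (∀ n, Bijective fun x : S => nm x n) ∧
    (∀ f : S →ₙ+ S, ∃ m n, ∀ x, nm (f x) n = nm x m) ∧
    ∀ m n, (∀ x : S, nm x m = nm x n) → m = n := by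
  constructor
  · rintro ⟨e⟩
    obtain ⟨r, hr⟩ := e.surjective (.id _)
    have v : ∀ (q : {q : ℚ // 0 < q}) n, (nm q n).1 = (n + 1) * q.1 := fun q n =>
      (mnm (f := Subtype.val) (fun _ _ => rfl) q n).trans (nmr _ _)
    have w : ∀ q n x, e (nm q n) x = nm (e q x) n := fun q n x =>
      mnm (f := fun q => e q x) (by simp) q n
    refine ⟨fun n => ?_, fun f => ?_, fun m n h => ?_⟩
    · have a : ∀ x, nm (e ⟨r / (n + 1), by have := r.2; positivity⟩ x) n = x := fun x => by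
        rw [← w, show nm _ n = r from Subtype.ext (by rw [v]; field_simp), hr]; rfl
      exact ⟨LeftInverse.injective fun x => (mnm (map_add _) x n).trans (a x), fun x => ⟨_, a x⟩⟩
    · obtain ⟨q, rfl⟩ := e.surjective f
      obtain ⟨m, n, h⟩ := ex (div_pos q.2 r.2)
      refine ⟨m, n, fun x => ?_⟩
      rw [div_eq_div_iff r.2.ne' (by positivity)] at h
      rw [← w, show nm q n = nm r m from Subtype.ext (by rw [v, v]; linarith), w, hr]; rfl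
    · have := congrArg Subtype.val (e.injective (a₁ := nm r m) (a₂ := nm r n)
        (AddHom.ext fun x => by rw [w, w, h]))
      rw [v, v, mul_left_inj' r.2.ne'] at this
      simpa using this
  rintro ⟨hB, hR, hI⟩
  choose M N h using hR
  have key : ∀ (f : S →ₙ+ S) (m n : ℕ), (∀ x, nm (f x) n = nm x m) →
      ((M f + 1) / (N f + 1) : ℚ) = (m + 1) / (n + 1) := fun f m n k => by
    have := congrArg (Nat.cast : ℕ → ℚ)
      (hI (M f * n + M f + n) (m * N f + m + N f) fun x => by rw [← n2, ← n2, ← h, n4, k])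
    push_cast at this
    field_simp
    linarith
  refine ⟨.symm (.ofBijective (⟨fun f => ⟨(M f + 1) / (N f + 1), by positivity⟩, fun f g =>
    Subtype.ext ((key _ (M f * N g + M f + N g + (M g * N f + M g + N f) + 1)
      (N f * N g + N f + N g) fun x => ?_).trans ?_)⟩ : (S →ₙ+ S) →ₙ+ {q : ℚ // 0 < q})
    ⟨fun f g e => AddHom.ext fun x => (hB (N f * N g + N f + N g)).1 ?_, fun q => ?_⟩)⟩
  · rw [AddHom.add_apply, ← n2, n1, n1, h, n4 (g x), h, n2, n2, n3]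
  · show _ = ((M f + 1) / (N f + 1) + (M g + 1) / (N g + 1) : ℚ)
    push_cast
    rw [show (N f * N g + N f + N g + 1 : ℚ) = (N f + 1) * (N g + 1) by ring]
    field_simp
    ring
  · have a : ((M f + 1) / (N f + 1) : ℚ) = (M g + 1) / (N g + 1) := congrArg Subtype.val e
    rw [div_eq_div_iff (by positivity) (by positivity)] at a
    have b : M f * N g + M f + N g = M g * N f + M g + N f := by
      have : ((M f * N g + M f + N g : ℕ) : ℚ) = (M g * N f + M g + N f : ℕ) := by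
        push_cast; linarith
      exact_mod_cast this
    show nm _ _ = nm _ _
    rw [← n2, ← n2, h, n4 (g x), h, n2, n2, b]
  · obtain ⟨m, n, hq⟩ := ex q.2
    choose f hf using fun x : S => (hB n).2 (nm x m)
    exact ⟨⟨f, fun x y => (hB n).1 (by simp only [n1, hf])⟩,
      Subtype.ext ((key _ m n hf).trans hq.symm)⟩
end

theorem result :
    (∀ (S : Type) [AddCommSemigroup S], Nonempty ({q : ℚ // 0 < q} ≃+ (S →ₙ+ S)) ↔
      (∀ n, Bijective fun x : S => nm x n) ∧ (∀ f : S →ₙ+ S, ∃ m n, ∀ x, nm (f x) n = nm x m) ∧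
      ∀ m n, (∀ x : S, nm x m = nm x n) → m = n) ∧
    (∀ T : AddSubsemigroup ℝ, Cone T → (Nonempty ({q : ℚ // 0 < q} ≃+ (T →ₙ+ T)) ↔
      ∀ c : ℝ, (∀ x ∈ T, c * x ∈ T) ↔ ∃ q : ℚ, 0 < q ∧ c = q)) ∧
    (∀ T : AddSubsemigroup ℝ, Cone T → (Nonempty ({q : ℚ // 0 ≤ q} ≃+ (T →ₙ+ T)) ↔
      ∀ c : ℝ, (∀ x ∈ T, c * x ∈ T) ↔ ∃ q : ℚ, 0 ≤ q ∧ c = q)) ∧
    (∀ T W : AddSubsemigroup ℝ, Cone T → Cone W →
      (Nonempty (T ≃+ W) ↔ ∃ c : ℝ, 0 < c ∧ (c * ·) '' (T : Set ℝ) = W)) ∧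
    (∀ t : ℝ, Transcendental ℚ t → Nonempty ({q : ℚ // 0 < q} ≃+ (P t →ₙ+ P t)) ∧
      Nonempty ({q : ℚ // 0 ≤ q} ≃+ (N t →ₙ+ N t))) ∧
    (∀ t : ℝ, {s | Nonempty (P s ≃+ P t) ∨ Nonempty (N s ≃+ N t)}.Countable) := by
  refine ⟨fun _ _ => gen, fun _ => q1, fun _ => q2, fun _ _ => iso, fun t ht => ⟨(q1 (cP t)).2 fun c => ⟨fun h => ?_, ?_⟩,
    (q2 (cN t)).2 fun c => ⟨fun h => ?_, ?_⟩⟩, fun t => ?_⟩
  · obtain ⟨a, rfl⟩ := tr ht fun x hx => (h x hx).2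
    exact ⟨a, by simpa using (h 1 ⟨one_pos, 1, 0, by simp⟩).1, rfl⟩
  · rintro ⟨q, hq, rfl⟩ _ ⟨h, a, b, rfl⟩
    exact ⟨by positivity, q * a, q * b, by push_cast; ring⟩
  · obtain ⟨a, rfl⟩ := tr ht fun x hx => (h x ⟨hx.1.le, hx.2⟩).2
    exact ⟨a, by simpa using (h 1 ⟨zero_le_one, 1, 0, by simp⟩).1, rfl⟩
  · rintro ⟨q, hq, rfl⟩ _ ⟨h, a, b, rfl⟩
    exact ⟨by positivity, q * a, q * b, by push_cast; ring⟩
  refine (countable_range fun x : ℚ × ℚ × ℚ × ℚ × ℚ =>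
    (x.1 + x.2.1 * t) / (x.2.2.1 + x.2.2.2.1 * t) - x.2.2.2.2).mono fun s hs => ?_
  obtain ⟨c, c0, h⟩ : ∃ c : ℝ, 0 < c ∧ ∀ x ∈ P s, ∃ a b : ℚ, c * x = a + b * t := by
    rcases hs with hs | hs
    · obtain ⟨c, c0, h⟩ := (iso (cP s) (cP t)).1 hs
      exact ⟨c, c0, fun x hx => (h.subset ⟨x, hx, rfl⟩).2⟩
    · obtain ⟨c, c0, h⟩ := (iso (cN s) (cN t)).1 hs
      exact ⟨c, c0, fun x hx => (h.subset ⟨x, ⟨hx.1.le, hx.2⟩, rfl⟩).2⟩
  obtain ⟨a, b, e⟩ := h 1 ⟨one_pos, 1, 0, by simp⟩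
  obtain ⟨r, hr⟩ := exists_rat_gt (-s)
  obtain ⟨a', b', e'⟩ := h (r + s) ⟨by linarith, r, 1, by simp⟩
  refine ⟨(a', b', a, b, r), ?_⟩
  simp only [← e, ← e']
  field_simp
  ring

end Pool.Agent.Results.MP_822856_al.Cones
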